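import Mathlib

set_option autoImplicit false
open Filter Topology Finset

namespace Pool.Agent.H.MP_ea4027_nt

/-- counting function -/
noncomputable def cnt (B : Set ℕ) (N : ℕ) : ℝ := ((B ∩ Set.Icc 1 N).ncard : ℝ)

def Dens (B : Set ℕ) (d : ℝ) : Prop := Tendsto (fun N : ℕ => cnt B N / (N : ℝ)) atTop (𝓝 d)

theorem cnt_eq (B : Set ℕ) (N : ℕ) [DecidablePred (· ∈ B)] :
    cnt B N = (((Icc 1 N).filter (· ∈ B)).card : ℝ) := by
  rw [cnt, ← Set.ncard_coe_finset]
  congr 2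
  ext n
  simp only [Set.mem_inter_iff, Set.mem_Icc, coe_filter, mem_Icc, Set.mem_ofPred_eq]
  tauto

theorem cnt_nonneg (B : Set ℕ) (N : ℕ) : 0 ≤ cnt B N := Nat.cast_nonneg _

theorem cnt_le (B : Set ℕ) (N : ℕ) : cnt B N ≤ N := by
  classical
  rw [cnt_eq]
  have := card_filter_le (Icc 1 N) (· ∈ B)
  simp only [Nat.card_Icc, add_tsub_cancel_right] at this
  exact_mod_cast this

theorem cnt_mono {A B : Set ℕ} (h : A ⊆ B) (N : ℕ) : cnt A N ≤ cnt B N := by
  classical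
  rw [cnt_eq, cnt_eq]
  exact_mod_cast card_le_card fun n hn => by
    simp only [mem_filter] at hn ⊢; exact ⟨hn.1, h hn.2⟩

theorem cnt_union {A B : Set ℕ} (h : Disjoint A B) (N : ℕ) :
    cnt (A ∪ B) N = cnt A N + cnt B N := by
  rw [cnt, cnt, cnt, Set.union_inter_distrib_right, Set.ncard_union_eq
    (h.mono Set.inter_subset_left Set.inter_subset_left)
    ((Set.finite_Icc 1 N).inter_of_right _) ((Set.finite_Icc 1 N).inter_of_right _)]
  push_cast; rfl

theorem cnt_diff {A B : Set ℕ} (h : B ⊆ A) (N : ℕ) : cnt (A \ B) N = cnt A N - cnt B N := by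
  have := cnt_union (A := A \ B) (B := B) Set.disjoint_sdiff_left N
  rw [Set.sdiff_union_of_subset h] at this
  linarith

theorem cnt_dvd (k N : ℕ) : cnt {n | k ∣ n} N ≤ N / k := by
  classical
  rw [cnt_eq]
  have := Nat.Ioc_filter_dvd_card_eq_div N k
  have e : (Icc 1 N).filter (· ∈ {n | k ∣ n}) = (Ioc 0 N).filter (k ∣ ·) := by
    ext n; simp [Nat.succ_le_iff]
  rw [e, this]
  exact Nat.cast_div_le

theorem cnt_decomp (R B : Set ℕ) (S : Finset ℕ) (hS : ∀ s ∈ S, 0 < s)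
    (h1 : ∀ n, n ∈ B ↔ ∃ s ∈ S, ∃ r ∈ R, n = s * r)
    (h2 : ∀ s ∈ S, ∀ s' ∈ S, ∀ r ∈ R, ∀ r' ∈ R, s * r = s' * r' → s = s') (N : ℕ) :
    cnt B N = ∑ s ∈ S, cnt R (N / s) := by
  classical
  simp only [cnt_eq]
  have e : (Icc 1 N).filter (· ∈ B) =
      S.biUnion fun s => ((Icc 1 (N / s)).filter (· ∈ R)).image (s * ·) := by
    ext n
    simp only [mem_filter, mem_Icc, h1, mem_biUnion, mem_image]
    constructor
    · rintro ⟨⟨a1, a2⟩, s, hs, r, hr, rfl⟩
      refine ⟨s, hs, r, ⟨⟨?_, ?_⟩, hr⟩, rfl⟩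
      · exact Nat.pos_of_ne_zero fun h => by simp [h] at a1
      · rw [Nat.le_div_iff_mul_le (hS s hs), mul_comm]; exact a2
    · rintro ⟨s, hs, r, ⟨⟨a1, a2⟩, hr⟩, rfl⟩
      rw [Nat.le_div_iff_mul_le (hS s hs), mul_comm] at a2
      exact ⟨⟨Nat.mul_pos (hS s hs) a1, a2⟩, s, hs, r, hr, rfl⟩
  rw [e, card_biUnion]
  · push_cast
    refine sum_congr rfl fun s hs => ?_
    rw [card_image_of_injective _ (mul_right_injective₀ (hS s hs).ne')]
  · intro s hs s' hs' hne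
    rw [Function.onFun, disjoint_left]
    intro n hn hn'
    obtain ⟨r, hr, rfl⟩ := mem_image.1 hn
    obtain ⟨r', hr', h⟩ := mem_image.1 hn'
    exact hne (h2 s hs s' hs' r (mem_filter.1 hr).2 r' (mem_filter.1 hr').2 h.symm)

theorem tendsto_div_nat (s : ℕ) (hs : 0 < s) : Tendsto (fun N : ℕ => N / s) atTop atTop :=
  tendsto_atTop.2 fun b => (eventually_ge_atTop (b * s)).mono fun _ hn =>
    (Nat.le_div_iff_mul_le hs).2 hn

theorem tendsto_div_ratio (s : ℕ) (hs : 0 < s) :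
    Tendsto (fun N : ℕ => ((N / s : ℕ) : ℝ) / N) atTop (𝓝 (1 / s)) := by
  have hs' : (0 : ℝ) < s := by exact_mod_cast hs
  have t0 : Tendsto (fun n : ℕ => (1 : ℝ) / n) atTop (𝓝 0) :=
    tendsto_const_nhds.div_atTop tendsto_natCast_atTop_atTop
  have a1 := t0.const_sub (1 / (s : ℝ))
  rw [sub_zero] at a1
  refine tendsto_of_tendsto_of_tendsto_of_le_of_le' a1 tendsto_const_nhds ?_ ?_
  · filter_upwards [eventually_gt_atTop 0] with n hn
    have hn' : (0 : ℝ) < n := by exact_mod_cast hn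
    have h1 : n < s * (n / s + 1) := Nat.lt_mul_div_succ n hs
    have h2 : (n : ℝ) < s * (((n / s : ℕ) : ℝ) + 1) := by exact_mod_cast h1
    rw [le_div_iff₀ hn']
    field_simp
    linarith
  · filter_upwards [eventually_gt_atTop 0] with n hn
    have hn' : (0 : ℝ) < n := by exact_mod_cast hn
    rw [div_le_iff₀ hn', one_div_mul_eq_div]
    exact Nat.cast_div_le

theorem Dens.div {R : Set ℕ} {d : ℝ} (h : Dens R d) (s : ℕ) (hs : 0 < s) :
    Tendsto (fun N : ℕ => cnt R (N / s) / (N : ℝ)) atTop (𝓝 (d * (1 / s))) := by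
  refine ((Tendsto.comp h (tendsto_div_nat s hs)).mul (tendsto_div_ratio s hs)).congr' ?_
  filter_upwards [eventually_ge_atTop s] with n hn
  have : (0 : ℝ) < (n / s : ℕ) := by exact_mod_cast Nat.div_pos hn hs
  simp only [Function.comp]
  field_simp

theorem dens_decomp (R B : Set ℕ) (S : Finset ℕ) (hS : ∀ s ∈ S, 0 < s)
    (h1 : ∀ n, n ∈ B ↔ ∃ s ∈ S, ∃ r ∈ R, n = s * r)
    (h2 : ∀ s ∈ S, ∀ s' ∈ S, ∀ r ∈ R, ∀ r' ∈ R, s * r = s' * r' → s = s') {d : ℝ}
    (h : Dens R d) : Dens B (d * ∑ s ∈ S, (1 : ℝ) / s) := by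
  simp only [Dens, cnt_decomp R B S hS h1 h2, sum_div, mul_sum]
  exact tendsto_finsetSum _ fun s hs => h.div s (hS s hs)

theorem ev_upper {R : Set ℕ} {L : ℝ} (s : ℕ) (hs : 0 < s) (hL : 0 ≤ L)
    (h : ∀ᶠ N : ℕ in atTop, cnt R N / N ≤ L) :
    ∀ᶠ N : ℕ in atTop, cnt R (N / s) / N ≤ L * (1 / s) := by
  filter_upwards [(tendsto_div_nat s hs).eventually h, eventually_ge_atTop s] with n h1 hn
  have h0 : (0 : ℝ) < (n / s : ℕ) := by exact_mod_cast Nat.div_pos hn hs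
  have hn' : (0 : ℝ) < n := by exact_mod_cast lt_of_lt_of_le hs hn
  rw [div_le_iff₀ h0] at h1
  rw [div_le_iff₀ hn', mul_assoc, one_div_mul_eq_div]
  exact h1.trans (mul_le_mul_of_nonneg_left Nat.cast_div_le hL)

theorem ev_lower {R : Set ℕ} {l l' : ℝ} (s : ℕ) (hs : 0 < s) (hl : l' < l)
    (h : ∀ᶠ N : ℕ in atTop, l ≤ cnt R N / N) :
    ∀ᶠ N : ℕ in atTop, l' * (1 / s) ≤ cnt R (N / s) / N := by
  have hs' : (0 : ℝ) < s := by exact_mod_cast hs
  have t := (tendsto_div_ratio s hs).const_mul l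
  have t2 := t.eventually (lt_mem_nhds (show l' * (1 / (s : ℝ)) < l * (1 / s) by gcongr))
  filter_upwards [(tendsto_div_nat s hs).eventually h, eventually_ge_atTop s, t2] with n h1 hn h2
  have h0 : (0 : ℝ) < (n / s : ℕ) := by exact_mod_cast Nat.div_pos hn hs
  have hn' : (0 : ℝ) < n := by exact_mod_cast lt_of_lt_of_le hs hn
  rw [le_div_iff₀ h0] at h1
  refine h2.le.trans ?_
  rw [← mul_div_assoc]
  gcongr

/-- recover the density of `R` from that of `G` -/
theorem dens_inv (G R : Set ℕ) (δ : ℝ) (hδ : 0 < δ) (hG : Dens G δ)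
    (h : ∀ η : ℝ, 0 < η → ∃ S : Finset ℕ, (∀ s ∈ S, 0 < s) ∧ ∑ s ∈ S, (1 : ℝ) / s ≤ 3 / 4 ∧
      ∀ N, cnt R N + ∑ s ∈ S, cnt R (N / s) ≤ cnt G N ∧
        cnt G N ≤ cnt R N + ∑ s ∈ S, cnt R (N / s) + η * N) :
    ∃ d, 0 < d ∧ Dens R d := by
  let a : ℕ → ℝ := fun N => cnt R N / N
  have a0 : ∀ N, 0 ≤ a N := fun N => div_nonneg (cnt_nonneg _ _) (Nat.cast_nonneg _)
  have a1 : ∀ N, a N ≤ 1 := fun N => div_le_one_of_le₀ (cnt_le _ _) (Nat.cast_nonneg _)
  have b1 : IsBoundedUnder (· ≤ ·) atTop a := isBoundedUnder_of ⟨1, a1⟩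
  have b0 : IsBoundedUnder (· ≥ ·) atTop a := isBoundedUnder_of ⟨0, a0⟩
  set L := limsup a atTop with hL
  set l := liminf a atTop with hl
  have hlL : l ≤ L := liminf_le_limsup b1 b0
  have hl0 : 0 ≤ l := le_liminf_of_le b1.isCoboundedUnder_ge (Eventually.of_forall a0)
  have key : ∀ η : ℝ, 0 < η → ∃ σ : ℝ, 0 ≤ σ ∧ σ ≤ 3 / 4 ∧ L ≤ δ + η - (l - 2 * η) * σ ∧
      δ - 2 * η - (L + η) * σ ≤ l := by
    intro η hη
    obtain ⟨S, hS, hσ, hN⟩ := h η hη
    have e1 : ∀ᶠ N in atTop, a N ≤ L + η :=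
      (eventually_lt_of_limsup_lt (by linarith) b1).mono fun _ h => h.le
    have e2 : ∀ᶠ N in atTop, l - η ≤ a N :=
      (eventually_lt_of_lt_liminf (by linarith) b0).mono fun _ h => h.le
    have e3 := (eventually_all_finset S).2 fun s hs => ev_upper s (hS s hs) (by linarith) e1
    have e4 := (eventually_all_finset S).2 fun s hs =>
      ev_lower s (hS s hs) (show l - 2 * η < l - η by linarith) e2
    have e5 := Tendsto.eventually hG (lt_mem_nhds (show δ - η < δ by linarith))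
    have e6 := Tendsto.eventually hG (gt_mem_nhds (show δ < δ + η by linarith))
    refine ⟨∑ s ∈ S, (1 : ℝ) / s, sum_nonneg fun _ _ => by positivity, hσ, ?_, ?_⟩
    · refine limsup_le_of_le b0.isCoboundedUnder_le ?_
      filter_upwards [e4, e6, eventually_gt_atTop 0] with N h4 h6 hN0
      have hN' : (0 : ℝ) < N := by exact_mod_cast hN0
      have s1 := sum_le_sum h4
      rw [← mul_sum, ← sum_div] at s1
      have s2 := div_le_div_of_nonneg_right (hN N).1 hN'.le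
      rw [add_div] at s2
      simp only [a]
      linarith
    · refine le_liminf_of_le b1.isCoboundedUnder_ge ?_
      filter_upwards [e3, e5, eventually_gt_atTop 0] with N h3 h5 hN0
      have hN' : (0 : ℝ) < N := by exact_mod_cast hN0
      have s1 := sum_le_sum h3
      rw [← mul_sum, ← sum_div] at s1
      have s2 := div_le_div_of_nonneg_right (hN N).2 hN'.le
      rw [add_div, add_div, mul_div_assoc, div_self hN'.ne'] at s2
      simp only [a]
      linarith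
  have hEq : L = l := by
    refine le_antisymm (le_of_forall_pos_le_add fun ε hε => ?_) hlL
    obtain ⟨σ, h0, h1, h2, h3⟩ := key (ε / 24) (by positivity)
    nlinarith
  refine ⟨l, ?_, tendsto_of_liminf_eq_limsup rfl hEq b1 b0⟩
  obtain ⟨σ, h0, h1, h2, h3⟩ := key (δ / 4) (by positivity)
  rw [hEq] at h3
  by_contra hcon
  have : l = 0 := le_antisymm (not_lt.1 hcon) hl0
  rw [this] at h3
  nlinarith

end Pool.Agent.H.MP_ea4027_nt
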