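import Mathlib

set_option autoImplicit false
open Finset

namespace Pool.Agent.H.MP_ea4027_nt

theorem sum_le_of_inj {α β : Type} [DecidableEq β] (s : Finset α) (t : Finset β) (φ : α → β)
    (f : α → ℝ) (g : β → ℝ) (hφ : Set.InjOn φ s) (hm : ∀ a ∈ s, φ a ∈ t)
    (hf : ∀ a ∈ s, f a ≤ g (φ a)) (hg : ∀ b ∈ t, 0 ≤ g b) : ∑ a ∈ s, f a ≤ ∑ b ∈ t, g b := by
  calc _ ≤ ∑ a ∈ s, g (φ a) := sum_le_sum hf
    _ = ∑ b ∈ s.image φ, g b := (sum_image hφ).symm
    _ ≤ _ := sum_le_sum_of_subset_of_nonneg (image_subset_iff.2 hm) fun b hb _ => hg b hb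

/-- odd numbers up to `n` -/
def Od (n : ℕ) : Finset ℕ := (range (n + 1)).filter fun k => k % 2 = 1

theorem mem_Od {n k : ℕ} : k ∈ Od n ↔ k ≤ n ∧ k % 2 = 1 := by
  simp [Od]

theorem sum_Od (n : ℕ) (f : ℕ → ℝ) :
    ∑ k ∈ Od n, f k = ∑ i ∈ range ((n + 1) / 2), f (2 * i + 1) := by
  have : Od n = (range ((n + 1) / 2)).image fun i => 2 * i + 1 := by
    ext k
    simp only [mem_Od, mem_image, mem_range]
    constructor
    · rintro ⟨h1, h2⟩
      exact ⟨k / 2, by omega, by omega⟩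
    · rintro ⟨i, h1, rfl⟩
      omega
  rw [this, sum_image]
  intro a _ b _ h
  simp only at h
  omega

theorem sum_Od_id (n : ℕ) : ∑ k ∈ Od n, (k : ℝ) ≤ ((n : ℝ) + 1) ^ 2 / 4 := by
  rw [sum_Od]
  have h : ∀ t : ℕ, ∑ i ∈ range t, ((2 * i + 1 : ℕ) : ℝ) = (t : ℝ) ^ 2 := by
    intro t
    induction t with
    | zero => simp
    | succ t ih => rw [sum_range_succ, ih]; push_cast; ring
  rw [h]
  have : (((n + 1) / 2 : ℕ) : ℝ) ≤ ((n + 1 : ℕ) : ℝ) / (2 : ℕ) := Nat.cast_div_le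
  push_cast at this
  have h0 : (0 : ℝ) ≤ ((n + 1) / 2 : ℕ) := by positivity
  nlinarith

theorem sum_Od_sq (n : ℕ) : ∑ k ∈ Od n, 1 / (k : ℝ) ^ 2 ≤ 5 / 4 := by
  rw [sum_Od]
  have h : ∀ t : ℕ, ∑ i ∈ range (t + 1), 1 / ((2 * i + 1 : ℕ) : ℝ) ^ 2 ≤
      (5 / 4 : ℝ) - 1 / (4 * ((t : ℝ) + 1)) := by
    intro t
    induction t with
    | zero => norm_num
    | succ t ih =>
      rw [sum_range_succ]
      have : 1 / ((2 * (t + 1) + 1 : ℕ) : ℝ) ^ 2 ≤ 
          1 / (4 * ((t : ℝ) + 1)) - 1 / (4 * (((t + 1 : ℕ) : ℝ) + 1)) := by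
        push_cast
        rw [div_sub_div _ _ (by positivity) (by positivity), div_le_div_iff₀ (by positivity) (by positivity)]
        have : (0 : ℝ) ≤ t := by positivity
        nlinarith [sq_nonneg (t : ℝ), mul_nonneg this (sq_nonneg (t : ℝ))]
      linarith
  rcases (n + 1) / 2 with _ | t
  · norm_num
  · have := h t
    have : 0 ≤ 1 / (4 * ((t : ℝ) + 1)) := by positivity
    linarith

theorem Od_upper (n : ℕ) (hn : 1 ≤ n) : ∑ k ∈ Od n, 1 / (k : ℝ) ≤ 3 / 2 + Real.log n / 2 := by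
  rw [sum_Od]
  have h1 : ∑ i ∈ range ((n + 1) / 2), 1 / ((2 * i + 1 : ℕ) : ℝ) ≤
      ∑ i ∈ range (n + 1), 1 / ((2 * i + 1 : ℕ) : ℝ) :=
    sum_le_sum_of_subset_of_nonneg (range_subset_range.2 (by omega)) fun _ _ _ => by positivity
  refine h1.trans ?_
  rw [sum_range_succ']
  have h2 := harmonic_le_one_add_log n
  simp only [harmonic, Rat.cast_sum, Rat.cast_inv, Rat.cast_natCast] at h2
  have h3 : ∑ i ∈ range n, 1 / ((2 * (i + 1) + 1 : ℕ) : ℝ) ≤
      ∑ i ∈ range n, (((i + 1 : ℕ) : ℝ))⁻¹ / 2 := sum_le_sum fun i _ => by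
    push_cast
    rw [inv_eq_one_div, div_div]
    exact one_div_le_one_div_of_le (by positivity) (by linarith)
  rw [← sum_div] at h3
  norm_num at h3 h2 ⊢
  linarith

theorem Od_lower (Y : ℕ) (hY : 1 ≤ Y) : Real.log Y - 1 / 2 ≤ ∑ k ∈ Od (Y ^ 2), 1 / (k : ℝ) := by
  rw [sum_Od]
  set t := (Y ^ 2 + 1) / 2 with ht
  have h2 := log_add_one_le_harmonic t
  simp only [harmonic, Rat.cast_sum, Rat.cast_inv, Rat.cast_natCast] at h2
  have h3 : ∑ i ∈ range t, (((i + 1 : ℕ) : ℝ))⁻¹ / 2 ≤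
      ∑ i ∈ range t, 1 / ((2 * i + 1 : ℕ) : ℝ) := sum_le_sum fun i _ => by
    push_cast
    rw [inv_eq_one_div, div_div]
    exact one_div_le_one_div_of_le (by positivity) (by linarith)
  rw [← sum_div] at h3
  have hY' : (1 : ℝ) ≤ Y := by exact_mod_cast hY
  have h4 : Y ^ 2 ≤ 2 * (t + 1) := by omega
  have h5 : (Y : ℝ) ^ 2 ≤ 2 * ((t + 1 : ℕ) : ℝ) := by exact_mod_cast h4
  have h6 := Real.log_le_log (by positivity) h5
  rw [Real.log_pow, Real.log_mul (by norm_num) (by positivity)] at h6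
  have h7 := Real.log_two_lt_d9
  push_cast at h6 h2 h3 ⊢
  linarith

theorem gain (X : ℕ) : 3 / 4 * ∑ k ∈ Od X, 1 / (k : ℝ) ≤
    ∑ k ∈ (Od X).filter Squarefree, 1 / (k : ℝ) := by
  have h1 := sum_filter_add_sum_filter_not (Od X) Squarefree fun k => 1 / (k : ℝ)
  have h2 : ∀ d : ℕ, ∃ q : ℕ × ℕ, d ∈ (Od X).filter (fun k => ¬ Squarefree k) →
      q ∈ ((Od X).erase 1) ×ˢ Od X ∧ d = q.1 ^ 2 * q.2 := by
    intro d
    by_cases hd : d ∈ (Od X).filter (fun k => ¬ Squarefree k)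
    · obtain ⟨h3, h4⟩ := mem_filter.1 hd
      obtain ⟨h5, h6⟩ := mem_Od.1 h3
      rw [Nat.squarefree_iff_prime_squarefree] at h4
      push Not at h4
      obtain ⟨k, hk, j, hj⟩ := h4
      have hodd : Odd (k * k * j) := by rw [← hj]; exact Nat.odd_iff.2 h6
      have o1 : Odd k := (Nat.odd_mul.1 (Nat.odd_mul.1 hodd).1).1
      have o2 : Odd j := (Nat.odd_mul.1 hodd).2
      have p1 := o1.pos
      have p2 := o2.pos
      refine ⟨(k, j), fun _ => ⟨?_, by rw [hj]; ring⟩⟩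
      simp only [mem_product, mem_erase, mem_Od]
      refine ⟨⟨hk.ne_one, ?_, Nat.odd_iff.1 o1⟩, ?_, Nat.odd_iff.1 o2⟩
      · have : k ≤ k * k * j := by
          rw [mul_assoc]; exact Nat.le_mul_of_pos_right _ (Nat.mul_pos p1 p2)
        omega
      · have : j ≤ k * k * j := Nat.le_mul_of_pos_left _ (Nat.mul_pos p1 p1)
        omega
    · exact ⟨(0, 0), fun h => absurd h hd⟩
  choose φ hφ using h2
  have h3 := sum_le_of_inj ((Od X).filter (fun k => ¬ Squarefree k)) (((Od X).erase 1) ×ˢ Od X) φ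
    (fun k => 1 / (k : ℝ)) (fun q => 1 / (q.1 : ℝ) ^ 2 * (1 / (q.2 : ℝ)))
    (fun a ha b hb h => by rw [(hφ a ha).2, (hφ b hb).2, h]) (fun a ha => (hφ a ha).1)
    (fun a ha => by
      conv_lhs => rw [(hφ a ha).2]
      push_cast
      rw [one_div_mul_one_div])
    (fun _ _ => by positivity)
  rw [sum_product' (f := fun a b : ℕ => 1 / (a : ℝ) ^ 2 * (1 / (b : ℝ))), ← sum_mul_sum] at h3
  have h0 : 0 ≤ ∑ k ∈ Od X, 1 / (k : ℝ) := sum_nonneg fun _ _ => by positivity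
  have h4 : ∑ k ∈ (Od X).erase 1, 1 / (k : ℝ) ^ 2 ≤ 1 / 4 := by
    by_cases h : 1 ∈ Od X
    · have := sum_erase_eq_sub (f := fun k : ℕ => 1 / (k : ℝ) ^ 2) h
      rw [this]
      have := sum_Od_sq X
      norm_num at this ⊢
      linarith
    · have : X = 0 := by rw [mem_Od] at h; omega
      subst this
      have : Od 0 = ∅ := by decide
      rw [this]
      simp
  nlinarith

/-- the removal rule -/
def rule (X e Z F : ℕ) : Prop :=
  Z * F ≤ X ∧ ((e ≤ 1 ∧ 2 * Z < F) ∨ (e = 1 ∧ Z = 1 ∧ F = 1) ∨ ((e = 3 ∨ e = 4) ∧ Z ≤ 2 * F))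

open Classical in
theorem loss (Y : ℕ) (hY : 1 ≤ Y) :
    ∑ F ∈ Od (Y ^ 2), ∑ Z ∈ Od (Y ^ 2), ∑ e ∈ range 5,
      (if rule (Y ^ 2) e Z F then (Z : ℝ) / (2 ^ e * F ^ 3) else 0) ≤
      9 / 64 * Real.log Y + 6 := by
  have hY' : (1 : ℝ) ≤ Y := by exact_mod_cast hY
  have h1 : ∀ F ∈ Od (Y ^ 2), ∑ Z ∈ Od (Y ^ 2), ∑ e ∈ range 5,
      (if rule (Y ^ 2) e Z F then (Z : ℝ) / (2 ^ e * F ^ 3) else 0) ≤
      (if F ∈ Od Y then 9 / 32 * (1 / (F : ℝ)) + 2 * (1 / (F : ℝ) ^ 2) else 0) +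
      (if F ∈ Ioc Y (Y ^ 2) then 2 * Y * ((F : ℝ) ^ 2)⁻¹ else 0) := by
    intro F hF
    obtain ⟨hF1, hF2⟩ := mem_Od.1 hF
    have hF0 : 1 ≤ F := by omega
    have hF' : (1 : ℝ) ≤ F := by exact_mod_cast hF0
    by_cases hFY : F ≤ Y
    · rw [if_pos (mem_Od.2 ⟨hFY, hF2⟩), if_neg (by simp; omega), add_zero]
      have h2 : ∀ Z ∈ Od (Y ^ 2), ∑ e ∈ range 5,
          (if rule (Y ^ 2) e Z F then (Z : ℝ) / (2 ^ e * F ^ 3) else 0) ≤
          (3 / 2 * (if Z ∈ Od ((F - 1) / 2) then (Z : ℝ) else 0) +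
            1 / 2 * (if Z = 1 then (Z : ℝ) else 0) +
            3 / 16 * (if Z ∈ Od (2 * F) then (Z : ℝ) else 0)) / F ^ 3 := by
        intro Z hZ
        obtain ⟨hZ1, hZ2⟩ := mem_Od.1 hZ
        have hz : (0 : ℝ) ≤ (Z : ℝ) / F ^ 3 := by positivity
        have e : ∀ c : ℝ, (Z : ℝ) / (c * F ^ 3) = c⁻¹ * ((Z : ℝ) / F ^ 3) := fun c => by ring
        set w := (Z : ℝ) / F ^ 3 with hw
        have n1 : 0 ≤ (if Z ∈ Od ((F - 1) / 2) then w else 0) := by split_ifs <;> linarith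
        have n2 : 0 ≤ (if Z = 1 then w else 0) := by split_ifs <;> linarith
        have n3 : 0 ≤ (if Z ∈ Od (2 * F) then w else 0) := by split_ifs <;> linarith
        have t0 : (if rule (Y ^ 2) 0 Z F then w else 0) ≤
            (if Z ∈ Od ((F - 1) / 2) then w else 0) := by
          by_cases h : rule (Y ^ 2) 0 Z F
          · rw [if_pos h, if_pos (mem_Od.2 (by have := h.2; omega))]
          · rw [if_neg h]; exact n1
        have t1 : (if rule (Y ^ 2) 1 Z F then w else 0) ≤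
            (if Z ∈ Od ((F - 1) / 2) then w else 0) + (if Z = 1 then w else 0) := by
          by_cases h : rule (Y ^ 2) 1 Z F
          · rw [if_pos h]
            by_cases h' : Z = 1
            · rw [if_pos h']; linarith
            · rw [if_pos (mem_Od.2 (by have := h.2; omega))]; linarith
          · rw [if_neg h]; linarith
        have t2 : ¬ rule (Y ^ 2) 2 Z F := fun h => by have := h.2; omega
        have t3 : ∀ i, i = 3 ∨ i = 4 → (if rule (Y ^ 2) i Z F then w else 0) ≤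
            (if Z ∈ Od (2 * F) then w else 0) := by
          intro i hi
          by_cases h : rule (Y ^ 2) i Z F
          · rw [if_pos h, if_pos (mem_Od.2 (by have := h.2; omega))]
          · rw [if_neg h]; exact n3
        have t4 := t3 4 (Or.inr rfl)
        have t3 := t3 3 (Or.inl rfl)
        have e2 : ∀ (p : Prop) [Decidable p] (c : ℝ),
            (if p then c * w else 0) = c * (if p then w else 0) := fun p _ c => by
          split_ifs <;> simp
        simp only [sum_range_succ, range_zero, sum_empty, add_div, mul_div_assoc,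
          ite_div, e, zero_div, e2, if_neg t2, ← hw]
        generalize (if rule (Y ^ 2) 0 Z F then w else 0) = r0 at *
        generalize (if rule (Y ^ 2) 1 Z F then w else 0) = r1 at *
        generalize (if rule (Y ^ 2) 3 Z F then w else 0) = r3 at *
        generalize (if rule (Y ^ 2) 4 Z F then w else 0) = r4 at *
        generalize (if Z ∈ Od ((F - 1) / 2) then w else 0) = u1 at *
        generalize (if Z = 1 then w else 0) = u2 at *
        generalize (if Z ∈ Od (2 * F) then w else 0) = u3 at *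
        norm_num
        linarith
      refine (sum_le_sum h2).trans ?_
      rw [← sum_div, sum_add_distrib, sum_add_distrib, ← mul_sum, ← mul_sum, ← mul_sum]
      have b : ∀ n, ∑ Z ∈ Od (Y ^ 2), (if Z ∈ Od n then (Z : ℝ) else 0) ≤ ((n : ℝ) + 1) ^ 2 / 4 := by
        intro n
        rw [← sum_filter]
        refine le_trans (sum_le_sum_of_subset_of_nonneg (fun Z hZ => (mem_filter.1 hZ).2)
          fun _ _ _ => by positivity) (sum_Od_id n)
      have b1 := b ((F - 1) / 2)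
      have b2 := b (2 * F)
      have b3 : ∑ Z ∈ Od (Y ^ 2), (if Z = 1 then (Z : ℝ) else 0) ≤ 1 := by
        rw [sum_ite_eq']; split_ifs <;> simp
      have c1 : 2 * ((F - 1) / 2) + 1 = F := by omega
      have c2 : 2 * (((F - 1) / 2 : ℕ) : ℝ) + 1 = F := by exact_mod_cast c1
      have c3 : (((F - 1) / 2 : ℕ) : ℝ) + 1 = (F + 1) / 2 := by linarith
      rw [c3] at b1
      push_cast at b2
      rw [div_le_iff₀ (by positivity)]
      have e : (9 / 32 * (1 / (F : ℝ)) + 2 * (1 / (F : ℝ) ^ 2)) * F ^ 3 = 9 / 32 * F ^ 2 + 2 * F := by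
        field_simp
      rw [e]
      nlinarith
    · rw [if_neg (by rw [mem_Od]; omega), if_pos (by simp; omega), zero_add]
      have h2 : ∀ Z ∈ Od (Y ^ 2), ∑ e ∈ range 5,
          (if rule (Y ^ 2) e Z F then (Z : ℝ) / (2 ^ e * F ^ 3) else 0) ≤
          (if Z ∈ Icc 1 Y then 2 * (Y : ℝ) / F ^ 3 else 0) := by
        intro Z hZ
        obtain ⟨hZ1, hZ2⟩ := mem_Od.1 hZ
        by_cases hZY : Z ≤ Y
        · rw [if_pos (mem_Icc.2 ⟨by omega, hZY⟩)]
          have hz : (0 : ℝ) ≤ (Z : ℝ) / F ^ 3 := by positivity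
          have hz' : (Z : ℝ) / F ^ 3 ≤ Y / F ^ 3 := by gcongr
          have e : ∀ c : ℝ, (Z : ℝ) / (c * F ^ 3) = c⁻¹ * ((Z : ℝ) / F ^ 3) := fun c => by ring
          have b : ∀ i : ℕ, (if rule (Y ^ 2) i Z F then (Z : ℝ) / (2 ^ i * F ^ 3) else 0) ≤
              ((2 : ℝ) ^ i)⁻¹ * (Y / F ^ 3) := fun i => by
            rw [e]
            split_ifs
            · gcongr
            · positivity
          refine (sum_le_sum fun i _ => b i).trans ?_
          have hz2 : (0 : ℝ) ≤ (Y : ℝ) / F ^ 3 := by positivity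
          simp only [sum_range_succ, range_zero, sum_empty, mul_div_assoc]
          norm_num
          linarith
        · rw [if_neg (by simp; omega)]
          refine (sum_eq_zero fun e _ => if_neg fun h => ?_).le
          have := h.1
          nlinarith
      refine (sum_le_sum h2).trans ?_
      rw [← sum_filter]
      refine (sum_le_sum_of_subset_of_nonneg (fun Z hZ => (mem_filter.1 hZ).2)
          fun _ _ _ => by positivity).trans ?_
      have : (Y : ℝ) ≤ F := by exact_mod_cast (by omega : Y ≤ F)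
      simp only [sum_const, Nat.card_Icc, add_tsub_cancel_right, nsmul_eq_mul]
      rw [← mul_div_assoc, div_le_iff₀ (by positivity)]
      have e : 2 * (Y : ℝ) * ((F : ℝ) ^ 2)⁻¹ * F ^ 3 = 2 * Y * F := by field_simp
      rw [e]
      nlinarith
  refine (sum_le_sum h1).trans ?_
  rw [sum_add_distrib, ← sum_filter, ← sum_filter]
  have a1 := sum_le_sum_of_subset_of_nonneg (s := (Od (Y ^ 2)).filter (· ∈ Od Y))
    (f := fun F : ℕ => 9 / 32 * (1 / (F : ℝ)) + 2 * (1 / (F : ℝ) ^ 2))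
    (fun Z hZ => (mem_filter.1 hZ).2) fun _ _ _ => by positivity
  have a2 := sum_le_sum_of_subset_of_nonneg (s := (Od (Y ^ 2)).filter (· ∈ Ioc Y (Y ^ 2)))
    (f := fun F : ℕ => 2 * (Y : ℝ) * ((F : ℝ) ^ 2)⁻¹)
    (fun Z hZ => (mem_filter.1 hZ).2) fun _ _ _ => by positivity
  rw [sum_add_distrib (s := Od Y), ← mul_sum (Od Y), ← mul_sum (Od Y)] at a1
  rw [← mul_sum (Ioc Y (Y ^ 2))] at a2
  have a3 := Od_upper Y hY
  have a4 := sum_Od_sq Y
  have a5 := sum_Ioc_inv_sq_le_sub (α := ℝ) (k := Y) (n := Y ^ 2) (by omega) (by nlinarith)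
  have a6 : 2 * (Y : ℝ) * ∑ i ∈ Ioc Y (Y ^ 2), ((i : ℝ) ^ 2)⁻¹ ≤ 2 * Y * (Y : ℝ)⁻¹ := by
    have : (0 : ℝ) ≤ ((Y ^ 2 : ℕ) : ℝ)⁻¹ := by positivity
    gcongr
    linarith
  rw [mul_assoc 2 (Y : ℝ) (Y : ℝ)⁻¹, mul_inv_cancel₀ (by positivity)] at a6
  linarith

end Pool.Agent.H.MP_ea4027_nt
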