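import Mathlib
import Pool.Agent.H.MP_ea4027_nt.Dens
import Pool.Agent.H.MP_ea4027_nt.Sums

set_option autoImplicit false
open Filter Topology Finset

namespace Pool.Agent.H.MP_ea4027_nt

def Ast (e : ℕ) : Prop := ∀ d ∈ Nat.digits 3 e, d ≤ 1

theorem Ast_iff (e : ℕ) : Ast e ↔ e % 3 ≤ 1 ∧ Ast (e / 3) := by
  rcases Nat.eq_zero_or_pos e with rfl | h
  · simp [Ast]
  · simp [Ast, Nat.digits_def' (by norm_num : 1 < 3) h]

theorem Ast0 : Ast 0 := by simp [Ast]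
theorem Ast1 : Ast 1 := by rw [Ast_iff]; exact ⟨by norm_num, Ast0⟩
theorem Ast2 {e : ℕ} (h : Ast e) : e ≠ 2 := by
  rintro rfl
  rw [Ast_iff] at h
  omega

theorem Ast_ap : ∀ b a c, Ast a → Ast b → Ast c → a + c = 2 * b → a = b := by
  intro b
  induction b using Nat.strong_induction_on with
  | _ b ih =>
    intro a c ha hb hc h
    rcases Nat.eq_zero_or_pos b with rfl | h0
    · omega
    · rw [Ast_iff] at ha hb hc
      have h' : a / 3 + c / 3 = 2 * (b / 3) := by omega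
      have := ih (b / 3) (by omega) (a / 3) (c / 3) ha.2 hb.2 hc.2 h'
      omega

theorem Ast_two {b c : ℕ} (hb : Ast b) (hc : Ast c) (h : 2 + c = 2 * b) : b = 1 ∨ b = 3 := by
  rw [Ast_iff] at hb hc
  by_cases h0 : b % 3 = 0
  · have := Ast_ap (b / 3) 1 (c / 3) Ast1 hb.2 hc.2 (by omega)
    omega
  · have := Ast_ap (b / 3) 0 (c / 3) Ast0 hb.2 hc.2 (by omega)
    omega

/-- odd primes up to `X` -/
def PP (X : ℕ) : Finset ℕ := (Od X).filter Nat.Prime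

def pr (X : ℕ) (f : ℕ → ℕ) (j : ℕ) : ℕ := ∏ q ∈ (PP X).filter (fun q => f q = j), q

def GG (f : ℕ → ℕ) : Prop := ∀ p, Ast (f p)

def Off (Q : Finset ℕ) (f : ℕ → ℕ) : Prop := ∀ p ∉ Q, Ast (f p)

def PC (X : ℕ) (f : ℕ → ℕ) : Prop :=
  f 2 = 2 ∧ (∀ q ∈ PP X, f q = 1 ∨ f q = 2) ∧ pr X f 2 ≤ X

def PR (X : ℕ) (f : ℕ → ℕ) : Prop :=
  Ast (f 2) ∧ (∀ q ∈ PP X, Ast (f q) ∧ f q ≤ 4) ∧ rule X (f 2) (pr X f 0) (pr X f 4)

theorem PP_prime {X q : ℕ} (h : q ∈ PP X) : q.Prime := (mem_filter.1 h).2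

theorem pr_pos (X : ℕ) (f : ℕ → ℕ) (j : ℕ) : 0 < pr X f j :=
  prod_pos fun _ h => (PP_prime (mem_filter.1 h).1).pos

theorem endpoint {X : ℕ} (hX : 1 ≤ X) {f g h : ℕ → ℕ} (hf : PC X f) (hg : GG g) (hh : GG h)
    (e : ∀ p, f p + h p = 2 * g p) : PR X g := by
  have h2 : g 2 = 1 ∨ g 2 = 3 := Ast_two (hg 2) (hh 2) (by rw [← e 2, hf.1])
  have h3 : ∀ q ∈ PP X, g q = 1 ∨ g q = 3 := by
    intro q hq
    rcases hf.2.1 q hq with h1 | h1
    · left
      exact (Ast_ap (g q) 1 (h q) Ast1 (hg q) (hh q) (by rw [← e q, h1])).symm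
    · exact Ast_two (hg q) (hh q) (by rw [← e q, h1])
  have h4 : ∀ j, j = 0 ∨ j = 4 → pr X g j = 1 := by
    intro j hj
    rw [pr, filter_eq_empty_iff.2 fun q hq => by have := h3 q hq; omega, prod_empty]
  refine ⟨hg 2, fun q hq => ⟨hg q, by have := h3 q hq; omega⟩, ?_⟩
  rw [h4 0 (Or.inl rfl), h4 4 (Or.inr rfl), rule]
  omega

theorem middle {X : ℕ} {f g h : ℕ → ℕ} (hf : GG f) (hg : PC X g) (hh : GG h)
    (e : ∀ p, f p + h p = 2 * g p) (h1 : f 2 ≤ 1) : PR X f ∨ PR X h := by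
  have a : ∀ q ∈ PP X, f q + h q = 2 * g q ∧ (g q = 1 ∨ g q = 2) ∧ f q ≠ 2 ∧ h q ≠ 2 :=
    fun q hq => ⟨e q, hg.2.1 q hq, Ast2 (hf q), Ast2 (hh q)⟩
  have e1 : pr X h 4 = pr X f 0 := by
    rw [pr, pr, filter_congr fun q hq => by have := a q hq; show h q = 4 ↔ f q = 0; omega]
  have e2 : pr X h 0 = pr X f 4 := by
    rw [pr, pr, filter_congr fun q hq => by have := a q hq; show h q = 0 ↔ f q = 4; omega]
  have e3 : pr X f 0 * pr X f 4 ≤ X := by
    refine le_trans (Nat.le_of_dvd (pr_pos X g 2) ?_) hg.2.2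
    rw [pr, pr, ← prod_union (disjoint_filter.2 fun q _ h1 h2 => by omega)]
    refine prod_dvd_prod_of_subset _ _ _ fun q hq => ?_
    simp only [mem_union, mem_filter] at hq ⊢
    rcases hq with hq | hq
    · exact ⟨hq.1, by have := a q hq.1; omega⟩
    · exact ⟨hq.1, by have := a q hq.1; omega⟩
  have e4 := e 2
  rw [hg.1] at e4
  by_cases c : 2 * pr X f 0 < pr X f 4
  · left
    exact ⟨hf 2, fun q hq => ⟨hf q, by have := a q hq; omega⟩, e3, Or.inl ⟨h1, c⟩⟩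
  · right
    refine ⟨hh 2, fun q hq => ⟨hh q, by have := a q hq; omega⟩, ?_⟩
    rw [e1, e2]
    exact ⟨by rwa [mul_comm], Or.inr (Or.inr ⟨by omega, by omega⟩)⟩

def InA (X : ℕ) (f : ℕ → ℕ) : Prop :=
  (GG f ∧ ¬ PR X f) ∨ (PC X f ∧ Off (insert 2 (PP X)) f)

theorem gp {X : ℕ} (hX : 1 ≤ X) {f g h : ℕ → ℕ} (hf : InA X f) (hg : InA X g) (hh : InA X h)
    (e : ∀ p, f p + h p = 2 * g p) (p : ℕ) : f p = g p := by
  have e' : ∀ p, h p + f p = 2 * g p := fun p => by rw [add_comm, e]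
  have e2 := e 2
  rcases hf with hf | hf <;> rcases hg with hg | hg <;> rcases hh with hh | hh
  · exact Ast_ap _ _ _ (hf.1 p) (hg.1 p) (hh.1 p) (e p)
  · exact absurd (endpoint hX hh.1 hg.1 hf.1 e') hg.2
  · exfalso
    have b1 := Ast2 (hf.1 2)
    have b2 := hg.1.1
    by_cases c : f 2 ≤ 1
    · exact (middle hf.1 hg.1 hh.1 e c).elim hf.2 hh.2
    · exact (middle hh.1 hg.1 hf.1 e' (by omega)).elim hh.2 hf.2
  · have b1 := Ast2 (hf.1 2)
    have b2 := hg.1.1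
    have b3 := hh.1.1
    omega
  · exact absurd (endpoint hX hf.1 hg.1 hh.1 e) hg.2
  · have b1 := Ast2 (hg.1 2)
    have b2 := hf.1.1
    have b3 := hh.1.1
    omega
  · have b1 := Ast2 (hh.1 2)
    have b2 := hf.1.1
    have b3 := hg.1.1
    omega
  · by_cases c : p ∈ insert 2 (PP X)
    · rcases mem_insert.1 c with rfl | c
      · rw [hf.1.1, hg.1.1]
      · have b1 := hf.1.2.1 p c
        have b2 := hg.1.2.1 p c
        have b3 := hh.1.2.1 p c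
        have := e p
        omega
    · exact Ast_ap _ _ _ (hf.2 p c) (hg.2 p c) (hh.2 p c) (e p)

def BB (Φ : (ℕ → ℕ) → Prop) : Set ℕ := {n | 1 ≤ n ∧ Φ n.factorization}

theorem fact_prod (T : Finset ℕ) (hT : ∀ q ∈ T, q.Prime) (p : ℕ) :
    (∏ q ∈ T, q).factorization p = if p ∈ T then 1 else 0 := by
  rw [Nat.factorization_prod_apply fun q hq => (hT q hq).ne_zero,
    sum_congr rfl fun q hq => by rw [(hT q hq).factorization, Finsupp.single_apply]]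
  simp

open Classical in
noncomputable def SS (T : Finset ℕ) (K : ℕ) (Φ : (ℕ → ℕ) → Prop) : Finset ℕ :=
  ((∏ q ∈ T, q) ^ K).divisors.filter fun s => Φ s.factorization

theorem mem_SS {T : Finset ℕ} (hT : ∀ q ∈ T, q.Prime) {K : ℕ} {Φ : (ℕ → ℕ) → Prop}
    (hK : ∀ f, Φ f → ∀ q ∈ T, f q ≤ K) {s : ℕ} :
    s ∈ SS T K Φ ↔ 0 < s ∧ (∀ p ∉ T, s.factorization p = 0) ∧ Φ s.factorization := by
  have h0 : (∏ q ∈ T, q) ^ K ≠ 0 := pow_ne_zero _ (prod_ne_zero_iff.2 fun q hq => (hT q hq).ne_zero)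
  have h1 : ∀ p, ((∏ q ∈ T, q) ^ K).factorization p = if p ∈ T then K else 0 := fun p => by
    rw [Nat.factorization_pow, Finsupp.smul_apply, fact_prod T hT]
    simp
  simp only [SS, mem_filter, Nat.mem_divisors]
  constructor
  · rintro ⟨⟨h2, -⟩, h3⟩
    have h4 : s ≠ 0 := ne_zero_of_dvd_ne_zero h0 h2
    refine ⟨Nat.pos_of_ne_zero h4, fun p hp => ?_, h3⟩
    have := (Nat.factorization_le_iff_dvd h4 h0).2 h2 p
    rw [h1, if_neg hp] at this
    omega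
  · rintro ⟨h2, h3, h4⟩
    refine ⟨⟨(Nat.factorization_le_iff_dvd h2.ne' h0).1 fun p => ?_, h0⟩, h4⟩
    rw [h1]
    split_ifs with hp
    · exact hK _ h4 p hp
    · exact (h3 p hp).le

theorem decomp {T : Finset ℕ} (hT : ∀ q ∈ T, q.Prime) {K : ℕ} {Φ Ψ : (ℕ → ℕ) → Prop}
    (hΦ : ∀ f g, (∀ q ∈ T, f q = g q) → Φ f → Φ g)
    (hΨ : ∀ f g, (∀ q ∉ T, f q = g q) → Ψ f → Ψ g)
    (hK : ∀ f, Φ f → ∀ q ∈ T, f q ≤ K) :
    (∀ s ∈ SS T K Φ, 0 < s) ∧
    (∀ n, n ∈ BB (fun f => Φ f ∧ Ψ f) ↔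
      ∃ s ∈ SS T K Φ, ∃ r ∈ BB (fun f => (∀ q ∈ T, f q = 0) ∧ Ψ f), n = s * r) ∧
    (∀ s ∈ SS T K Φ, ∀ s' ∈ SS T K Φ, ∀ r ∈ BB (fun f => (∀ q ∈ T, f q = 0) ∧ Ψ f),
      ∀ r' ∈ BB (fun f => (∀ q ∈ T, f q = 0) ∧ Ψ f), s * r = s' * r' → s = s') := by
  classical
  refine ⟨fun s hs => ((mem_SS hT hK).1 hs).1, fun n => ⟨?_, ?_⟩, ?_⟩
  · rintro ⟨h1, h2, h3⟩
    have b : ∀ (P : ℕ → Prop) [DecidablePred P],
        ((n.factorization.filter P).prod (· ^ ·)).factorization = n.factorization.filter P ∧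
        0 < (n.factorization.filter P).prod (· ^ ·) := by
      intro P _
      have c : ∀ p ∈ (n.factorization.filter P).support, p.Prime := fun p hp => by
        rw [Finsupp.support_filter] at hp
        exact Nat.prime_of_mem_primeFactors (mem_filter.1 hp).1
      exact ⟨Nat.prod_pow_factorization_eq_self c, prod_pos fun p hp => pow_pos (c p hp).pos _⟩
    refine ⟨(n.factorization.filter (· ∈ T)).prod (· ^ ·), (mem_SS hT hK).2 ⟨(b _).2, ?_, ?_⟩,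
      (n.factorization.filter (· ∉ T)).prod (· ^ ·), ⟨(b _).2, ?_, ?_⟩, ?_⟩
    · intro p hp
      rw [(b _).1, Finsupp.filter_apply, if_neg hp]
    · refine hΦ _ _ (fun p hp => ?_) h2
      rw [(b _).1, Finsupp.filter_apply, if_pos hp]
    · intro p hp
      rw [(b _).1, Finsupp.filter_apply, if_neg (not_not.2 hp)]
    · refine hΨ _ _ (fun p hp => ?_) h3
      rw [(b _).1, Finsupp.filter_apply, if_pos hp]
    · rw [Finsupp.prod_filter_mul_prod_filter_not, Nat.prod_factorization_pow_eq_self (by omega)]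
  · rintro ⟨s, hs, r, ⟨h1, h2, h3⟩, rfl⟩
    obtain ⟨a1, a2, a3⟩ := (mem_SS hT hK).1 hs
    have e : ∀ p, (s * r).factorization p = s.factorization p + r.factorization p := fun p => by
      rw [Nat.factorization_mul a1.ne' (by omega), Finsupp.add_apply]
    exact ⟨Nat.mul_pos a1 h1, hΦ _ _ (fun p hp => by rw [e, h2 p hp, add_zero]) a3,
      hΨ _ _ (fun p hp => by rw [e, a2 p hp, zero_add]) h3⟩
  · rintro s hs s' hs' r ⟨h1, h2, -⟩ r' ⟨h1', h2', -⟩ h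
    obtain ⟨a1, a2, -⟩ := (mem_SS hT hK).1 hs
    obtain ⟨a1', a2', -⟩ := (mem_SS hT hK).1 hs'
    refine Nat.eq_of_factorization_eq a1.ne' a1'.ne' fun p => ?_
    by_cases hp : p ∈ T
    · have := congrArg (fun x => Nat.factorization x p) h
      simp only [Nat.factorization_mul a1.ne' (by omega : r ≠ 0),
        Nat.factorization_mul a1'.ne' (by omega : r' ≠ 0), Finsupp.add_apply] at this
      rwa [h2 p hp, h2' p hp, add_zero, add_zero] at this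
    · rw [a2 p hp, a2' p hp]

end Pool.Agent.H.MP_ea4027_nt
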