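import Mathlib
import Pool.Agent.H.MP_ea4027_nt.Comb

set_option autoImplicit false
open Filter Topology Finset

namespace Pool.Agent.H.MP_ea4027_nt

def GQ (Q : Finset ℕ) : Set ℕ := BB fun f => (∀ q ∈ Q, f q = 0) ∧ Off Q f

theorem geo (K : ℕ) : ∑ e ∈ range (K + 3), (if e = 0 ∨ e = 2 then (0 : ℝ) else (1 / 2) ^ e) =
    3 / 4 - (1 / 2) ^ (K + 2) := by
  induction K with
  | zero => simp [sum_range_succ]; norm_num
  | succ K ih =>
    rw [show K + 1 + 3 = K + 3 + 1 by ring, sum_range_succ, ih, if_neg (by omega)]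
    ring

theorem step (Q : Finset ℕ) (q : ℕ) (hq : q.Prime) (hqQ : q ∉ Q) {δ : ℝ} (hδ : 0 < δ)
    (h : Dens (GQ Q) δ) : ∃ d, 0 < d ∧ Dens (GQ (insert q Q)) d := by
  classical
  refine dens_inv _ _ δ hδ h fun η hη => ?_
  obtain ⟨K, hK⟩ := exists_pow_lt_of_lt_one hη (show (1 / 2 : ℝ) < 1 by norm_num)
  have hT : ∀ p ∈ ({q} : Finset ℕ), p.Prime := by simpa using hq
  have hb : ∀ f : ℕ → ℕ, Ast (f q) ∧ f q ≤ K → ∀ p ∈ ({q} : Finset ℕ), f p ≤ K := by
    intro f hf p hp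
    rw [mem_singleton.1 hp]
    exact hf.2
  obtain ⟨d1, d2, d3⟩ := decomp hT (K := K) (Φ := fun f => Ast (f q) ∧ f q ≤ K)
    (Ψ := fun f => (∀ p ∈ Q, f p = 0) ∧ Off (insert q Q) f)
    (fun f g e hf => by rwa [← e q (mem_singleton_self q)])
    (fun f g e hf => ⟨fun p hp => by
        rw [← e p (fun h => hqQ (mem_singleton.1 h ▸ hp))]; exact hf.1 p hp,
      fun p hp => by
        rw [← e p (fun h => hp (mem_singleton.1 h ▸ mem_insert_self _ _))]; exact hf.2 p hp⟩) hb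
  have eR : BB (fun f => (∀ p ∈ ({q} : Finset ℕ), f p = 0) ∧ (∀ p ∈ Q, f p = 0) ∧
      Off (insert q Q) f) = GQ (insert q Q) := by
    ext n
    simp [BB, GQ, and_assoc]
  rw [eR] at d2 d3
  have hc := cnt_decomp _ _ _ d1 d2 d3
  set S := SS {q} K fun f => Ast (f q) ∧ f q ≤ K with hS
  have h1 : 1 ∈ S := (mem_SS hT hb).2 ⟨one_pos, by simp, by simp [Ast0]⟩
  have hq2 : (2 : ℝ) ≤ q := by exact_mod_cast hq.two_le
  refine ⟨S.erase 1, fun s hs => d1 s (mem_of_mem_erase hs), ?_, fun N => ?_⟩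
  · have e : ∀ s ∈ S, s = q ^ s.factorization q := by
      intro s hs
      obtain ⟨a1, a2, -⟩ := (mem_SS hT hb).1 hs
      refine Nat.eq_of_factorization_eq a1.ne' (pow_ne_zero _ hq.ne_zero) fun p => ?_
      rw [hq.factorization_pow, Finsupp.single_apply]
      split_ifs with c
      · rw [c]
      · exact a2 p fun h => c (mem_singleton.1 h).symm
    refine (sum_le_of_inj _ (range (K + 3)) (fun s => s.factorization q) _
      (fun e => if e = 0 ∨ e = 2 then (0 : ℝ) else (1 / 2) ^ e) ?_ ?_ ?_ ?_).trans ?_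
    · intro a ha b hb h
      rw [e a (mem_of_mem_erase ha), e b (mem_of_mem_erase hb)]
      exact congrArg _ h
    · intro a ha
      have := ((mem_SS hT hb).1 (mem_of_mem_erase ha)).2.2.2
      exact mem_range.2 (by omega)
    · intro a ha
      have a1 := Ast2 ((mem_SS hT hb).1 (mem_of_mem_erase ha)).2.2.1
      have a2 := e a (mem_of_mem_erase ha)
      have a3 : a.factorization q ≠ 0 := fun h => ne_of_mem_erase ha (by rw [a2, h, pow_zero])
      rw [if_neg (by omega)]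
      conv_lhs => rw [a2]
      push_cast
      rw [one_div_pow]
      gcongr
    · intro b _
      split_ifs <;> positivity
    · rw [geo]
      have : (0 : ℝ) ≤ (1 / 2) ^ (K + 2) := by positivity
      linarith
  · have e1 := hc N
    rw [← add_sum_erase _ _ h1, Nat.div_one] at e1
    rw [← e1]
    refine ⟨cnt_mono (fun n hn => ?_) N, ?_⟩
    · refine ⟨hn.1, hn.2.2.1, fun p hp => ?_⟩
      by_cases c : p = q
      · rw [c]; exact hn.2.1.1
      · exact hn.2.2.2 p (by simp [c, hp])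
    · set B := BB fun f => (Ast (f q) ∧ f q ≤ K) ∧ (∀ p ∈ Q, f p = 0) ∧ Off (insert q Q) f
      have s1 : GQ Q ⊆ B ∪ ({n | q ^ K ∣ n} \ B) := by
        intro n hn
        by_cases c : n ∈ B
        · exact Or.inl c
        · refine Or.inr ⟨?_, c⟩
          refine (hq.pow_dvd_iff_le_factorization (by have := hn.1; omega)).2 ?_
          by_contra c'
          exact c ⟨hn.1, ⟨hn.2.2 q hqQ, by omega⟩, hn.2.1,
            fun p hp => hn.2.2 p fun h => hp (mem_insert_of_mem h)⟩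
      have s2 := cnt_mono s1 N
      rw [cnt_union Set.disjoint_sdiff_right] at s2
      have s3 := (cnt_mono (Set.sdiff_subset : {n | q ^ K ∣ n} \ B ⊆ _) N).trans (cnt_dvd _ N)
      have s4 : (N : ℝ) / (q ^ K : ℕ) ≤ η * N := by
        rw [div_eq_mul_one_div, mul_comm]
        refine mul_le_mul_of_nonneg_right (le_trans ?_ hK.le) (Nat.cast_nonneg _)
        push_cast
        rw [one_div_pow]
        gcongr
      linarith

theorem all_steps {δ : ℝ} (hδ : 0 < δ) (h : Dens (BB GG) δ) (Q : Finset ℕ)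
    (hQ : ∀ q ∈ Q, q.Prime) : ∃ d, 0 < d ∧ Dens (GQ Q) d := by
  induction Q using Finset.induction_on with
  | empty =>
    refine ⟨δ, hδ, ?_⟩
    convert h using 1
    ext n
    simp [GQ, BB, Off, GG]
  | insert q Q hq ih =>
    obtain ⟨d, h1, h2⟩ := ih fun p hp => hQ p (mem_insert_of_mem hp)
    exact step Q q (hQ q (mem_insert_self _ _)) hq h1 h2

theorem delta_pos {δ : ℝ} (h : Dens (BB GG) δ) : 0 < δ := by
  classical
  refine lt_of_lt_of_le (by norm_num : (0 : ℝ) < 1 / 4) (ge_of_tendsto h ?_)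
  filter_upwards [eventually_ge_atTop 2] with N hN
  have hN' : (0 : ℝ) < N := by exact_mod_cast (by omega : 0 < N)
  have s1 : Icc 1 N ⊆ (Icc 1 N).filter (· ∈ BB GG) ∪
      (Ioc 1 N).biUnion fun k => (Icc 1 N).filter (· ∈ {n | k ^ 2 ∣ n}) := by
    intro n hn
    simp only [mem_union, mem_filter, mem_biUnion, Set.mem_ofPred_eq]
    obtain ⟨h1, h2⟩ := mem_Icc.1 hn
    by_cases c : Squarefree n
    · refine Or.inl ⟨hn, h1, fun p => ?_⟩
      have := c.natFactorization_le_one p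
      rcases Nat.le_one_iff_eq_zero_or_eq_one.1 this with e | e <;> rw [e]
      exacts [Ast0, Ast1]
    · rw [Nat.squarefree_iff_prime_squarefree] at c
      push Not at c
      obtain ⟨k, hk, c⟩ := c
      exact Or.inr ⟨k, mem_Ioc.2 ⟨hk.one_lt, (Nat.le_of_dvd h1 (Dvd.dvd.trans (Dvd.intro _ rfl) c)).trans h2⟩,
        hn, by rwa [sq]⟩
  have s2 := (card_le_card s1).trans ((card_union_le _ _).trans
    (Nat.add_le_add_left card_biUnion_le _))
  rw [Nat.card_Icc, add_tsub_cancel_right] at s2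
  have s3 : (N : ℝ) ≤ cnt (BB GG) N + ∑ k ∈ Ioc 1 N, cnt {n | k ^ 2 ∣ n} N := by
    simp only [cnt_eq]
    exact_mod_cast s2
  have s4 : ∑ k ∈ Ioc 1 N, cnt {n | k ^ 2 ∣ n} N ≤ ∑ k ∈ Ioc 1 N, (N : ℝ) * ((k : ℝ) ^ 2)⁻¹ :=
    sum_le_sum fun k _ => (cnt_dvd _ _).trans (by push_cast; rw [div_eq_mul_inv])
  rw [← mul_sum, ← sum_Ioc_consecutive (fun k : ℕ => ((k : ℝ) ^ 2)⁻¹) (by norm_num : 1 ≤ 2) hN] at s4
  have s5 := sum_Ioc_inv_sq_le_sub (α := ℝ) (k := 2) (n := N) (by omega) hN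
  have s6 : (0 : ℝ) ≤ (N : ℝ)⁻¹ := by positivity
  have s7 : ∑ k ∈ Ioc 1 2, (((k : ℕ) : ℝ) ^ 2)⁻¹ = 1 / 4 := by
    rw [show Ioc 1 2 = {2} from rfl]; norm_num
  rw [s7] at s4
  rw [le_div_iff₀ hN']
  norm_num at s5
  nlinarith

theorem two_not_mem (X : ℕ) : 2 ∉ PP X := by simp [PP, mem_Od]

theorem QQ_prime (X : ℕ) : ∀ q ∈ insert 2 (PP X), q.Prime := fun q hq => by
  rcases mem_insert.1 hq with rfl | h
  exacts [Nat.prime_two, PP_prime h]

theorem pr_congr {X : ℕ} {f g : ℕ → ℕ} (e : ∀ q ∈ insert 2 (PP X), f q = g q) (j : ℕ) :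
    pr X f j = pr X g j := by
  rw [pr, pr, filter_congr fun q hq => by rw [e q (mem_insert_of_mem hq)]]

theorem PC_bd {X : ℕ} : ∀ f, PC X f → ∀ q ∈ insert 2 (PP X), f q ≤ 2 := fun f hf q hq => by
  rcases mem_insert.1 hq with rfl | h
  · exact hf.1.le
  · have := hf.2.1 q h
    omega

theorem PR_bd {X : ℕ} : ∀ f, PR X f → ∀ q ∈ insert 2 (PP X), f q ≤ 4 := fun f hf q hq => by
  rcases mem_insert.1 hq with rfl | h
  · have := hf.2.2.2
    omega
  · exact (hf.2.1 q h).2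

theorem fact_pr (X : ℕ) (f : ℕ → ℕ) (j p : ℕ) :
    (pr X f j).factorization p = if p ∈ PP X ∧ f p = j then 1 else 0 := by
  rw [pr, fact_prod _ fun q hq => PP_prime (mem_filter.1 hq).1]
  simp

theorem gainS (X : ℕ) : 1 / (4 * (∏ q ∈ PP X, q : ℕ) : ℝ) * (3 / 4 * ∑ k ∈ Od X, 1 / (k : ℝ)) ≤
    ∑ s ∈ SS (insert 2 (PP X)) 2 (PC X), (1 : ℝ) / s := by
  set M := ∏ q ∈ PP X, q with hM
  have M0 : 0 < M := prod_pos fun _ h => (PP_prime h).pos
  refine le_trans (mul_le_mul_of_nonneg_left (gain X) (by positivity)) ?_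
  rw [mul_sum]
  refine sum_le_of_inj _ _ (fun d => 2 ^ 2 * M * d) _ _ ?_ ?_ ?_ fun _ _ => by positivity
  · intro a _ b _ h
    exact Nat.eq_of_mul_eq_mul_left (by positivity) h
  · intro d hd
    obtain ⟨h1, h2⟩ := mem_filter.1 hd
    obtain ⟨h3, h4⟩ := mem_Od.1 h1
    have d0 : 0 < d := by omega
    have e : ∀ p, (2 ^ 2 * M * d).factorization p =
        (if 2 = p then 2 else 0) + (if p ∈ PP X then 1 else 0) + d.factorization p := fun p => by
      rw [Nat.factorization_mul (by positivity) d0.ne', Nat.factorization_mul (by positivity) M0.ne',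
        Finsupp.add_apply, Finsupp.add_apply, Nat.prime_two.factorization_pow, Finsupp.single_apply,
        fact_prod _ fun q hq => PP_prime hq]
    have z : ∀ p ∉ PP X, d.factorization p = 0 := by
      intro p hp
      by_contra c
      have c1 := Nat.prime_of_mem_primeFactors (Finsupp.mem_support_iff.2 c)
      have c2 := Nat.dvd_of_mem_primeFactors (Finsupp.mem_support_iff.2 c)
      exact hp (mem_filter.2 ⟨mem_Od.2 ⟨(Nat.le_of_dvd d0 c2).trans h3,
        Nat.odd_iff.1 (Odd.of_dvd_nat (Nat.odd_iff.2 h4) c2)⟩, c1⟩)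
    have ne : ∀ q ∈ PP X, 2 ≠ q := fun q hq h => two_not_mem X (h ▸ hq)
    refine (mem_SS (QQ_prime X) PC_bd).2 ⟨by positivity, fun p hp => ?_, ?_, fun q hq => ?_, ?_⟩
    · rw [mem_insert, not_or] at hp
      rw [e, if_neg (Ne.symm hp.1), if_neg hp.2, z p hp.2]
    · rw [e, if_pos rfl, if_neg (two_not_mem X), z 2 (two_not_mem X)]
    · have := h2.natFactorization_le_one q
      rw [e, if_neg (ne q hq), if_pos hq]
      omega
    · refine (Nat.le_of_dvd d0 ((Nat.factorization_le_iff_dvd (pr_pos _ _ _).ne' d0.ne').1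
        fun p => ?_)).trans h3
      rw [fact_pr]
      split_ifs with c
      · have := c.2
        rw [e, if_neg (ne p c.1), if_pos c.1] at this
        omega
      · exact Nat.zero_le _
  · intro a _
    push_cast
    rw [one_div_mul_one_div]

theorem pr_mem (X : ℕ) (f : ℕ → ℕ) (j : ℕ) : pr X f j % 2 = 1 ∧ pr X f j ≤ ∏ q ∈ PP X, q :=
  ⟨Nat.odd_iff.1 (prod_induction _ Odd (fun _ _ => Odd.mul) odd_one fun _ hq =>
    Nat.odd_iff.2 (mem_Od.1 (mem_filter.1 (mem_filter.1 hq).1).1).2),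
   Nat.le_of_dvd (prod_pos fun _ h => (PP_prime h).pos)
    (prod_dvd_prod_of_subset _ _ _ (filter_subset _ _))⟩

theorem lossS (Y : ℕ) (hY : 1 ≤ Y) :
    ∑ s ∈ SS (insert 2 (PP (Y ^ 2))) 4 (PR (Y ^ 2)), (1 : ℝ) / s ≤
      1 / ((∏ q ∈ PP (Y ^ 2), q : ℕ) : ℝ) * (5 / 4 * (9 / 64 * Real.log Y + 6)) := by
  classical
  have hl := loss Y hY
  set X := Y ^ 2
  set M := ∏ q ∈ PP X, q with hM
  have M0 : 0 < M := prod_pos fun _ h => (PP_prime h).pos
  have key : ∀ s ∈ SS (insert 2 (PP X)) 4 (PR X), s * pr X s.factorization 0 =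
      2 ^ s.factorization 2 * M * pr X s.factorization 4 ^ 3 * pr X s.factorization 3 ^ 2 := by
    intro s hs
    obtain ⟨a1, a2, a3⟩ := (mem_SS (QQ_prime X) PR_bd).1 hs
    have b := pr_pos X s.factorization
    have b0 := b 0
    have b3 := b 3
    have b4 := b 4
    refine Nat.eq_of_factorization_eq (by positivity) (by positivity) fun p => ?_
    rw [Nat.factorization_mul a1.ne' b0.ne', Nat.factorization_mul (by positivity) (by positivity),
      Nat.factorization_mul (by positivity) (by positivity),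
      Nat.factorization_mul (by positivity) M0.ne', Nat.prime_two.factorization_pow,
      Nat.factorization_pow, Nat.factorization_pow]
    simp only [Finsupp.add_apply, Finsupp.smul_apply, fact_pr, Finsupp.single_apply, smul_eq_mul]
    rw [fact_prod _ fun q hq => PP_prime hq]
    by_cases c : p ∈ PP X
    · have c1 := a3.2.1 p c
      have c2 := Ast2 c1.1
      rw [if_neg (fun h : 2 = p => two_not_mem X (h ▸ c))]
      simp only [c, true_and, if_true]
      split_ifs <;> omega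
    · simp only [c, false_and, if_false]
      split_ifs with c'
      · rw [c']; simp
      · exact a2 p fun h => (mem_insert.1 h).elim (fun h => c' h.symm) c
  refine (sum_le_of_inj _ (Od M ×ˢ Od X ×ˢ Od X ×ˢ range 5)
    (fun s => (pr X s.factorization 3, pr X s.factorization 4, pr X s.factorization 0,
      s.factorization 2)) _
    (fun t => 1 / (M : ℝ) * (1 / (t.1 : ℝ) ^ 2 * (if rule X t.2.2.2 t.2.2.1 t.2.1 then
      (t.2.2.1 : ℝ) / (2 ^ t.2.2.2 * t.2.1 ^ 3) else 0))) ?_ ?_ ?_ ?_).trans ?_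
  · intro a ha b hb h
    simp only [Prod.mk.injEq] at h
    have h1 := key a ha
    rw [h.1, h.2.1, h.2.2.1, h.2.2.2, ← key b hb] at h1
    exact Nat.eq_of_mul_eq_mul_right (pr_pos _ _ _) h1
  · intro s hs
    obtain ⟨a1, a2, a3⟩ := (mem_SS (QQ_prime X) PR_bd).1 hs
    have b0 := pr_pos X s.factorization 0
    have b4 := pr_pos X s.factorization 4
    have c := a3.2.2.1
    simp only [mem_product, mem_Od, mem_range]
    refine ⟨⟨(pr_mem _ _ _).2, (pr_mem _ _ _).1⟩, ⟨by nlinarith, (pr_mem _ _ _).1⟩,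
      ⟨by nlinarith, (pr_mem _ _ _).1⟩, ?_⟩
    have := PR_bd _ a3 2 (mem_insert_self _ _)
    omega
  · intro s hs
    obtain ⟨a1, a2, a3⟩ := (mem_SS (QQ_prime X) PR_bd).1 hs
    have b0 := pr_pos X s.factorization 0
    have b3 := pr_pos X s.factorization 3
    have b4 := pr_pos X s.factorization 4
    have h1 : (s : ℝ) * pr X s.factorization 0 = 2 ^ s.factorization 2 * M *
      pr X s.factorization 4 ^ 3 * pr X s.factorization 3 ^ 2 := by exact_mod_cast key s hs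
    simp only [if_pos a3.2.2]
    apply le_of_eq
    field_simp
    linarith
  · intro b _
    split_ifs <;> positivity
  · rw [← mul_sum]
    refine mul_le_mul_of_nonneg_left ?_ (by positivity)
    rw [sum_product' (f := fun (a : ℕ) (t : ℕ × ℕ × ℕ) => 1 / (a : ℝ) ^ 2 * (if rule X t.2.2 t.2.1 t.1 then
      (t.2.1 : ℝ) / (2 ^ t.2.2 * t.1 ^ 3) else 0)), ← sum_mul_sum]
    simp only [sum_product]
    refine mul_le_mul (sum_Od_sq M) hl ?_ (by norm_num)
    refine sum_nonneg fun _ _ => sum_nonneg fun _ _ => sum_nonneg fun _ _ => ?_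
    split_ifs <;> positivity

theorem main {δ : ℝ} (h : Dens (BB GG) δ) : ∃ (A : Set ℕ) (d : ℝ), (∀ n ∈ A, 1 ≤ n) ∧
    (∀ a ∈ A, ∀ b ∈ A, ∀ c ∈ A, a < b → b < c → b ^ 2 ≠ a * c) ∧ Dens A d ∧ δ < d := by
  obtain ⟨Y, hY, hL⟩ := ((eventually_ge_atTop 1).and ((Real.tendsto_log_atTop.comp
    (tendsto_natCast_atTop_atTop (R := ℝ))).eventually_ge_atTop 1000)).exists
  have g1 := gainS (Y ^ 2)
  have g2 := lossS Y hY
  have g3 := Od_lower Y hY
  have hX : 1 ≤ Y ^ 2 := Nat.one_le_pow _ _ hY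
  set X := Y ^ 2
  obtain ⟨l, l0, hl⟩ := all_steps (delta_pos h) h _ (QQ_prime X)
  have hO : ∀ f g : ℕ → ℕ, (∀ q ∉ insert 2 (PP X), f q = g q) → Off (insert 2 (PP X)) f →
      Off (insert 2 (PP X)) g := fun f g e hf p hp => e p hp ▸ hf p hp
  obtain ⟨c1, c2, c3⟩ := decomp (QQ_prime X) (Φ := PC X) (fun f g e hf =>
    ⟨e 2 (mem_insert_self _ _) ▸ hf.1, fun q hq => e q (mem_insert_of_mem hq) ▸ hf.2.1 q hq,
      pr_congr e 2 ▸ hf.2.2⟩) hO PC_bd
  obtain ⟨r1, r2, r3⟩ := decomp (QQ_prime X) (Φ := PR X) (fun f g e hf =>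
    ⟨e 2 (mem_insert_self _ _) ▸ hf.1, fun q hq => e q (mem_insert_of_mem hq) ▸ hf.2.1 q hq,
      e 2 (mem_insert_self _ _) ▸ pr_congr e 0 ▸ pr_congr e 4 ▸ hf.2.2⟩) hO PR_bd
  have dC := dens_decomp _ _ _ c1 c2 c3 hl
  have dR := dens_decomp _ _ _ r1 r2 r3 hl
  set C := BB fun f => PC X f ∧ Off (insert 2 (PP X)) f
  set R := BB fun f => PR X f ∧ Off (insert 2 (PP X)) f
  have hA : ∀ n ∈ (BB GG \ R) ∪ C, 1 ≤ n ∧ InA X n.factorization := by
    rintro n (hn | hn)
    · exact ⟨hn.1.1, Or.inl ⟨hn.1.2, fun c => hn.2 ⟨hn.1.1, c, fun p _ => hn.1.2 p⟩⟩⟩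
    · exact ⟨hn.1, Or.inr hn.2⟩
  have hR : R ⊆ BB GG := fun n hn => ⟨hn.1, fun p => by
    by_cases c : p ∈ insert 2 (PP X)
    · rcases mem_insert.1 c with rfl | c
      exacts [hn.2.1.1, (hn.2.1.2.1 p c).1]
    · exact hn.2.2 p c⟩
  have hD : Disjoint (BB GG \ R) C :=
    Set.disjoint_left.2 fun n h1 h2 => Ast2 (h1.1.2 2) h2.2.1.1
  refine ⟨(BB GG \ R) ∪ C, δ - l * ∑ s ∈ SS (insert 2 (PP X)) 4 (PR X), (1 : ℝ) / s +
    l * ∑ s ∈ SS (insert 2 (PP X)) 2 (PC X), (1 : ℝ) / s, fun n hn => (hA n hn).1, ?_, ?_, ?_⟩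
  · intro a ha b hb c hc h1 _ h3
    obtain ⟨a1, a2⟩ := hA a ha
    obtain ⟨b1, b2⟩ := hA b hb
    obtain ⟨c1, c2⟩ := hA c hc
    refine h1.ne (Nat.eq_of_factorization_eq (by omega) (by omega) (gp hX a2 b2 c2 fun p => ?_))
    have := congrArg (fun x => Nat.factorization x p) h3
    simp only [Nat.factorization_mul (by omega : a ≠ 0) (by omega : c ≠ 0), Nat.factorization_pow,
      Finsupp.add_apply, Finsupp.smul_apply, smul_eq_mul] at this
    exact this.symm
  · simp only [Dens, cnt_union hD, cnt_diff hR, add_div, sub_div]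
    exact (Tendsto.sub h dR).add dC
  · have M0 : (0 : ℝ) < (∏ q ∈ PP X, q : ℕ) := by
      exact_mod_cast prod_pos fun _ h => (PP_prime h).pos
    generalize ((∏ q ∈ PP X, q : ℕ) : ℝ) = M at *
    have : ∑ s ∈ SS (insert 2 (PP X)) 4 (PR X), (1 : ℝ) / s <
        ∑ s ∈ SS (insert 2 (PP X)) 2 (PC X), (1 : ℝ) / s := by
      refine g2.trans_lt (lt_of_lt_of_le ?_ g1)
      rw [show 1 / (4 * M) = 1 / M * (1 / 4) by field_simp, mul_assoc]
      refine mul_lt_mul_of_pos_left ?_ (by positivity)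
      simp only [Function.comp] at hL
      linarith
    nlinarith

end Pool.Agent.H.MP_ea4027_nt
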